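import Pool.Agent.X225.Pg.Local

/-! Automorphisms. -/

namespace Pool.Agent.X225.Pg

open Finset

variable {n : ℕ}

lemma ne_of_idx {v : ℕ → Fin n} (hv : IsSeq n v) {i j : ℕ} (hi : i < n) (hj : j < n)
    (h : i ≠ j) : v i ≠ v j := fun h' => h (hv.1 i hi j hj h')

lemma F_BB {v : ℕ → Fin n} (hn : 5 ≤ n) (hv : IsSeq n v) {X : Finset (Sym2 (Fin n))}
    (hX : IsP X) (h1 : ad (B v 1) X) (h2 : ad (B v 2) X) : X = E v := by
  have hff : s(v 1, v (n - 1)) ≠ s(v 2, v (n - 1)) := by
    rw [ne_eq, pair_eq hv (by omega) (by omega) (by omega) (by omega)]; omega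
  have hee : ed v 1 ≠ ed v 2 := by
    rw [ne_eq, ed_inj hv (by omega) (by omega)]; omega
  obtain ⟨hin, hout, c1, c2⟩ := two_common (by omega) (card_E hv) hX.card
    (ed_mem (v := v) (k := 1) (by omega)) (ed_mem (v := v) (k := 2) (by omega)) hee
    (b_not_mem hv (i := 1) (by omega)) (b_not_mem hv (i := 2) (by omega)) hff h1 h2
  have hin' : ∀ k, k + 1 < n → k ≠ 1 → k ≠ 2 → ed v k ∈ X := by
    intro k hk h1 h2
    exact hin _ (ed_mem hk) (fun h => h1 ((ed_inj hv hk (by omega)).1 h))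
      (fun h => h2 ((ed_inj hv hk (by omega)).1 h))
  rcases c1 with ⟨a1, a2⟩ | ⟨a1, a2⟩ <;> rcases c2 with ⟨b1, b2⟩ | ⟨b1, b2⟩
  · refine eq_of_all (card_E hv) hX.card ?_
    intro e he
    rcases hout e he with h | h | h
    · exact h
    · exact absurd (h ▸ he) a2
    · exact absurd (h ▸ he) b2
  · exfalso
    obtain ⟨x, y, hx, hy, hxy⟩ := conn hX (fun x => x = v 0 ∨ x = v 1) (a := v 0) (b := v 2)
      (Or.inl rfl) (by
        rintro (h | h)
        · exact ne_of_idx hv (by omega) (by omega) (by omega) h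
        · exact ne_of_idx hv (by omega) (by omega) (by omega) h)
    obtain ⟨l, hl, rfl⟩ := hv.2 y
    have hl0 : l ≠ 0 := fun h => hy (Or.inl (by rw [h]))
    have hl1 : l ≠ 1 := fun h => hy (Or.inr (by rw [h]))
    obtain ⟨k, hk, rfl⟩ : ∃ k, k < 2 ∧ v k = x := by
      rcases hx with h | h
      · exact ⟨0, by omega, h.symm⟩
      · exact ⟨1, by omega, h.symm⟩
    rcases hout _ hxy with h | h | h
    · rw [pair_mem hv (by omega) hl] at h
      have hk1 : k = 1 := by omega
      have hl2 : l = 2 := by omega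
      subst hk1 hl2
      exact b1 hxy
    · exact a2 (h ▸ hxy)
    · rw [pair_eq hv (by omega) hl (by omega) (by omega)] at h
      omega
  · exfalso
    have h3 : s(v 1, v 0) ∈ X := by
      rw [Sym2.eq_swap]; exact hin' 0 (by omega) (by omega) (by omega)
    rcases deg hX h3 b1 a2 with h | h | h
    · exact ne_of_idx hv (by omega) (by omega) (by omega) h
    · exact ne_of_idx hv (by omega) (by omega) (by omega) h
    · exact ne_of_idx hv (by omega) (by omega) (by omega) h
  · exfalso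
    have h3 : s(v (n - 1), v (n - 2)) ∈ X := by
      have := hin' (n - 2) (by omega) (by omega) (by omega)
      rw [ed, show n - 2 + 1 = n - 1 by omega, Sym2.eq_swap] at this
      exact this
    rw [Sym2.eq_swap] at a2 b2
    rcases deg hX h3 a2 b2 with h | h | h
    · exact ne_of_idx hv (by omega) (by omega) (by omega) h
    · exact ne_of_idx hv (by omega) (by omega) (by omega) h
    · exact ne_of_idx hv (by omega) (by omega) (by omega) h

lemma F_BA {v : ℕ → Fin n} (hn : 5 ≤ n) (hv : IsSeq n v) {X : Finset (Sym2 (Fin n))}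
    (hX : IsP X) (h1 : ad (B v 1) X) (h2 : ad (A v 2) X) : X = E v := by
  have hff : s(v 1, v (n - 1)) ≠ s(v 0, v (2 + 1)) := by
    rw [ne_eq, pair_eq hv (by omega) (by omega) (by omega) (by omega)]; omega
  have hee : ed v 1 ≠ ed v 2 := by
    rw [ne_eq, ed_inj hv (by omega) (by omega)]; omega
  obtain ⟨hin, hout, c1, c2⟩ := two_common (by omega) (card_E hv) hX.card
    (ed_mem (v := v) (k := 1) (by omega)) (ed_mem (v := v) (k := 2) (by omega)) hee
    (b_not_mem hv (i := 1) (by omega)) (a_not_mem hv (i := 2) (by omega) (by omega)) hff h1 h2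
  have hin' : ∀ k, k + 1 < n → k ≠ 1 → k ≠ 2 → ed v k ∈ X := by
    intro k hk h1 h2
    exact hin _ (ed_mem hk) (fun h => h1 ((ed_inj hv hk (by omega)).1 h))
      (fun h => h2 ((ed_inj hv hk (by omega)).1 h))
  rcases c1 with ⟨a1, a2⟩ | ⟨a1, a2⟩ <;> rcases c2 with ⟨b1, b2⟩ | ⟨b1, b2⟩
  · refine eq_of_all (card_E hv) hX.card ?_
    intro e he
    rcases hout e he with h | h | h
    · exact h
    · exact absurd (h ▸ he) a2
    · exact absurd (h ▸ he) b2
  · exfalso
    have h3 : s(v 3, v 4) ∈ X := hin' 3 (by omega) (by omega) (by omega)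
    have h4 : s(v 3, v 2) ∈ X := by rw [Sym2.eq_swap]; exact a1
    have h5 : s(v 3, v 0) ∈ X := by rw [Sym2.eq_swap]; exact b2
    rcases deg hX h3 h4 h5 with h | h | h
    · exact ne_of_idx hv (by omega) (by omega) (by omega) h
    · exact ne_of_idx hv (by omega) (by omega) (by omega) h
    · exact ne_of_idx hv (by omega) (by omega) (by omega) h
  · exfalso
    have h3 : s(v 1, v 0) ∈ X := by
      rw [Sym2.eq_swap]; exact hin' 0 (by omega) (by omega) (by omega)
    rcases deg hX h3 b1 a2 with h | h | h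
    · exact ne_of_idx hv (by omega) (by omega) (by omega) h
    · exact ne_of_idx hv (by omega) (by omega) (by omega) h
    · exact ne_of_idx hv (by omega) (by omega) (by omega) h
  · exfalso
    obtain ⟨x, y, rfl, hy, hxy⟩ := conn hX (fun x => x = v 2) (a := v 2) (b := v 0)
      rfl (ne_of_idx hv (by omega) (by omega) (by omega))
    obtain ⟨l, hl, rfl⟩ := hv.2 y
    rcases hout _ hxy with h | h | h
    · rw [pair_mem hv (by omega) hl] at h
      have : l = 3 ∨ l = 1 := by omega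
      rcases this with rfl | rfl
      · exact a1 hxy
      · rw [Sym2.eq_swap] at hxy
        exact b1 hxy
    · rw [pair_eq hv (by omega) hl (by omega) (by omega)] at h
      omega
    · rw [pair_eq hv (by omega) hl (by omega) (by omega)] at h
      omega

/-- A second common neighbour. -/
lemma exists_Q {v : ℕ → Fin n} (hn : 5 ≤ n) (hv : IsSeq n v) :
    ∃ Q, IsP Q ∧ ad (A v 1) Q ∧ ad (B v 2) Q ∧ Q ≠ E v := by
  have h3 : 3 ≤ n := by omega
  have hp : IsSeq n (pre v 1) := isSeq_pre hv (by omega)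
  have hs : IsSeq n (suf v 2) := isSeq_suf hv (by omega)
  refine ⟨B (pre v 1) 2, isP_B hp (by omega), ?_, ?_, ?_⟩
  · rw [← E_pre hv le_rfl (by omega)]
    exact ad_B h3 hp (by omega)
  · rw [← E_suf hv (by omega), ← E_suf hp (by omega)]
    have : E (suf (pre v 1) 2) = E (pre (suf v 2) 1) := by
      apply E_congr
      intro k hk
      unfold suf pre
      by_cases h1 : k ≤ 1
      · rw [if_pos (by omega), if_pos h1, if_pos h1]
        dsimp only
        rw [if_pos (by omega)]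
      · by_cases h2 : k ≤ 2
        · rw [if_pos h2, if_neg h1, if_neg h1]
          dsimp only
          rw [if_pos h2]
        · rw [if_neg h2, if_neg (by omega), if_neg h1]
          dsimp only
          rw [if_neg h2]
    rw [this, E_pre hs le_rfl (by omega)]
    exact ad_A h3 hs le_rfl (by omega)
  · intro h
    have h1 : ed v 2 = ed (pre v 1) 2 := by
      rw [ed, ed]
      unfold pre
      rw [if_neg (by omega), if_neg (by omega)]
    have h2 : ed v 2 ∈ B (pre v 1) 2 := h ▸ ed_mem (by omega)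
    rw [h1, B, Finset.mem_insert, Finset.mem_erase] at h2
    rcases h2 with h2 | h2
    · exact b_not_mem hp (i := 2) (by omega) (h2 ▸ ed_mem (by omega))
    · exact h2.1 rfl

/-- An automorphism of the path graph, as a map on edge sets. -/
structure IsAut (F : Finset (Sym2 (Fin n)) → Finset (Sym2 (Fin n))) : Prop where
  maps : ∀ X, IsP X → IsP (F X)
  inj : ∀ X Y, IsP X → IsP Y → F X = F Y → X = Y
  surj : ∀ Y, IsP Y → ∃ X, IsP X ∧ F X = Y
  adj : ∀ X Y, IsP X → IsP Y → (ad (F X) (F Y) ↔ ad X Y)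

variable {F : Finset (Sym2 (Fin n)) → Finset (Sym2 (Fin n))}

lemma cyc_F (hF : IsAut F) {X Y : Finset (Sym2 (Fin n))} (hX : IsP X) (hY : IsP Y) :
    cyc (F X) (F Y) ↔ cyc X Y := by
  constructor
  · rintro ⟨h0, Z₁, Z₂, Z₃, ⟨a1, a2, a3⟩, ⟨b1, b2, b3⟩, ⟨c1, c2, c3⟩, d1, d2, d3⟩
    obtain ⟨W₁, w1, rfl⟩ := hF.surj _ a1
    obtain ⟨W₂, w2, rfl⟩ := hF.surj _ b1
    obtain ⟨W₃, w3, rfl⟩ := hF.surj _ c1
    exact ⟨(hF.adj _ _ hX hY).1 h0, W₁, W₂, W₃,
      ⟨w1, (hF.adj _ _ hX w1).1 a2, (hF.adj _ _ hY w1).1 a3⟩,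
      ⟨w2, (hF.adj _ _ hX w2).1 b2, (hF.adj _ _ hY w2).1 b3⟩,
      ⟨w3, (hF.adj _ _ hX w3).1 c2, (hF.adj _ _ hY w3).1 c3⟩,
      fun h => d1 (by rw [h]), fun h => d2 (by rw [h]), fun h => d3 (by rw [h])⟩
  · rintro ⟨h0, Z₁, Z₂, Z₃, ⟨a1, a2, a3⟩, ⟨b1, b2, b3⟩, ⟨c1, c2, c3⟩, d1, d2, d3⟩
    exact ⟨(hF.adj _ _ hX hY).2 h0, F Z₁, F Z₂, F Z₃,
      ⟨hF.maps _ a1, (hF.adj _ _ hX a1).2 a2, (hF.adj _ _ hY a1).2 a3⟩,
      ⟨hF.maps _ b1, (hF.adj _ _ hX b1).2 b2, (hF.adj _ _ hY b1).2 b3⟩,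
      ⟨hF.maps _ c1, (hF.adj _ _ hX c1).2 c2, (hF.adj _ _ hY c1).2 c3⟩,
      fun h => d1 (hF.inj _ _ a1 b1 h), fun h => d2 (hF.inj _ _ a1 c1 h),
      fun h => d3 (hF.inj _ _ b1 c1 h)⟩

lemma near_F (hF : IsAut F) {X Y : Finset (Sym2 (Fin n))} (hX : IsP X) (hY : IsP Y)
    (h : near X Y) : near (F X) (F Y) := by
  refine ⟨(cyc_F hF hX hY).2 h.1, ?_⟩
  intro Z hZ h1 h2
  obtain ⟨W, w, rfl⟩ := hF.surj _ hZ
  exact (cyc_F hF hX w).2 (h.2 W w ((hF.adj _ _ hX w).1 h1) ((hF.adj _ _ hY w).1 h2))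

/-- `F` maps the rotations of `v` to those of `w`. -/
def Good (F : Finset (Sym2 (Fin n)) → Finset (Sym2 (Fin n))) (v w : ℕ → Fin n) : Prop :=
  IsSeq n v ∧ IsSeq n w ∧ ∀ k, F (E (rot v k)) = E (rot w k)

lemma isP_E {v : ℕ → Fin n} (hv : IsSeq n v) : IsP (E v) := ⟨v, hv, rfl⟩

lemma exists_good (hn : 5 ≤ n) (hF : IsAut F) {v : ℕ → Fin n} (hv : IsSeq n v) :
    ∃ w, Good F v w := by
  have h3 : 3 ≤ n := by omega
  obtain ⟨w, hw, h0, h1⟩ : ∃ w, IsSeq n w ∧ F (E v) = E w ∧ F (E (rot v 1)) = E (rot w 1) := by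
    obtain ⟨w, hw, h0⟩ := hF.maps _ (isP_E hv)
    have hne : near (E w) (F (R v 0)) := by
      rw [← h0]
      exact near_F hF (isP_E hv) (isP_R h3 hv (by omega)) (near_R0 hn hv)
    have hr1 : E (rot v 1) = R v 0 := E_rot h3 hv (by omega)
    rcases near_imp hn hw (hF.maps _ (isP_R h3 hv (by omega))) hne with h | h
    · refine ⟨w, hw, h0, ?_⟩
      rw [hr1, h]
      exact (E_rot h3 hw (i := 0) (by omega)).symm
    · refine ⟨rev w, isSeq_rev hw, by rw [h0, E_rev], ?_⟩
      have : E (rot (rev w) 1) = R (rev w) 0 := E_rot h3 (isSeq_rev hw) (i := 0) (by omega)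
      rw [hr1, h, this, R_rev h3]
  refine ⟨w, hv, hw, ?_⟩
  have key : ∀ k, F (E (rot v k)) = E (rot w k) ∧ F (E (rot v (k + 1))) = E (rot w (k + 1)) := by
    intro k
    induction k with
    | zero => exact ⟨by rw [E_rot_zero, E_rot_zero, h0], h1⟩
    | succ k ih =>
      refine ⟨ih.2, ?_⟩
      have hvk : IsSeq n (rot v (k + 1)) := isSeq_rot hv _
      have hwk : IsSeq n (rot w (k + 1)) := isSeq_rot hw _
      have e1 : E (rot v (k + 1 + 1)) = R (rot v (k + 1)) 0 := by
        rw [← rot_rot]; exact E_rot h3 hvk (by omega)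
      have e2 : E (rot w (k + 1 + 1)) = R (rot w (k + 1)) 0 := by
        rw [← rot_rot]; exact E_rot h3 hwk (by omega)
      have e3 : E (rot w k) = R (rot w (k + 1)) (n - 2) := by
        rw [← E_rot h3 hwk (by omega), rot_rot, show k + 1 + (n - 2 + 1) = k + n by omega,
          rot_add_n]
      have hne : near (E (rot w (k + 1))) (F (R (rot v (k + 1)) 0)) := by
        rw [← ih.2]
        exact near_F hF (isP_E hvk) (isP_R h3 hvk (by omega)) (near_R0 hn hvk)
      rw [e1, e2]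
      rcases near_imp hn hwk (hF.maps _ (isP_R h3 hvk (by omega))) hne with h | h
      · exact h
      · exfalso
        rw [← e3, ← ih.1] at h
        have h4 := hF.inj _ _ (isP_R h3 hvk (by omega)) (isP_E (isSeq_rot hv k)) h
        rw [← e1, show k + 1 + 1 = k + (1 + 1) by omega, ← rot_rot,
          E_rot h3 (isSeq_rot hv k) (by omega)] at h4
        have h5 := ad_R h3 (isSeq_rot hv k) (i := 1) (by omega)
        rw [h4] at h5
        unfold ad at h5
        rw [Finset.inter_self, card_E (isSeq_rot hv k)] at h5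
        omega
  exact fun k => (key k).1

lemma good_A (hn : 5 ≤ n) (hF : IsAut F) {v w : ℕ → Fin n} (h : Good F v w) :
    F (A v 1) = A w 1 := by
  obtain ⟨hv, hw, hr⟩ := h
  have h3 : 3 ≤ n := by omega
  have h0 : F (E v) = E w := by
    have := hr 0
    rwa [E_rot_zero, E_rot_zero] at this
  have hR : ∀ i, i + 1 < n → F (R v i) = R w i := by
    intro i hi
    have := hr (i + 1)
    rwa [E_rot h3 hv hi, E_rot h3 hw hi] at this
  -- images of A and B
  have hcl : ∀ i, 1 ≤ i → i + 2 < n → ∀ X, IsP X → ad (E v) X → ad (R v i) X → ¬ cyc (E v) X →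
      F X = A w i ∨ F X = B w i := by
    intro i hi1 hi X hX h1 h2 h4
    have h5 : ad (E w) (F X) := by rw [← h0]; exact (hF.adj _ _ (isP_E hv) hX).2 h1
    have h6 : ad (R w i) (F X) := by
      rw [← hR i (by omega)]; exact (hF.adj _ _ (isP_R h3 hv (by omega)) hX).2 h2
    have h7 : ¬ cyc (E w) (F X) := by
      rw [← h0, cyc_F hF (isP_E hv) hX]; exact h4
    rcases common_R h3 hw (by omega) (hF.maps _ hX) h5 h6 with ⟨k, hk, h8⟩ | ⟨_, _, h8⟩
    · exfalso
      rw [h8] at h7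
      exact h7 (cyc_R hn hw hk)
    · exact h8
  have hA := hcl 1 le_rfl (by omega) (A v 1) (isP_A hv le_rfl (by omega))
    (ad_A h3 hv le_rfl (by omega)) (ad_RA h3 hv le_rfl (by omega))
    (not_cyc_A h3 hv le_rfl (by omega))
  have hB := hcl 2 (by omega) (by omega) (B v 2) (isP_B hv (by omega))
    (ad_B h3 hv (by omega)) (ad_RB h3 hv (by omega) (by omega))
    (not_cyc_B h3 hv (by omega) (by omega))
  obtain ⟨Q, hQ, q1, q2, q3⟩ := exists_Q hn hv
  have q1' := (hF.adj _ _ (isP_A hv le_rfl (by omega)) hQ).2 q1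
  have q2' := (hF.adj _ _ (isP_B hv (by omega)) hQ).2 q2
  have q3' : F Q ≠ E w := fun h => q3 (hF.inj _ _ hQ (isP_E hv) (by rw [h, h0]))
  rcases hA with hA | hA
  · exact hA
  · exfalso
    rw [hA] at q1'
    rcases hB with hB | hB
    · rw [hB] at q2'
      exact q3' (F_BA hn hw (hF.maps _ hQ) q1' q2')
    · rw [hB] at q2'
      exact q3' (F_BB hn hw (hF.maps _ hQ) q1' q2')

lemma good_rot {v w : ℕ → Fin n} (h : Good F v w) (m : ℕ) : Good F (rot v m) (rot w m) :=
  ⟨isSeq_rot h.1 _, isSeq_rot h.2.1 _, fun k => by rw [rot_rot, rot_rot]; exact h.2.2 _⟩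

lemma good_congr {v w v' w' : ℕ → Fin n} (h : Good F v w) (h1 : ∀ k < n, v k = v' k)
    (h2 : ∀ k < n, w k = w' k) : Good F v' w' := by
  refine ⟨isSeq_congr h1 h.1, isSeq_congr h2 h.2.1, fun k => ?_⟩
  have e1 : E (rot v k) = E (rot v' k) := E_congr fun j hj => h1 _ (Nat.mod_lt _ (by omega))
  have e2 : E (rot w k) = E (rot w' k) := E_congr fun j hj => h2 _ (Nat.mod_lt _ (by omega))
  rw [← e1, ← e2]
  exact h.2.2 k

lemma good_pre (hn : 5 ≤ n) (hF : IsAut F) {v w : ℕ → Fin n} (h : Good F v w) :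
    Good F (pre v 1) (pre w 1) := by
  have h3 : 3 ≤ n := by omega
  have hv := h.1
  have hw := h.2.1
  have hv' : IsSeq n (pre v 1) := isSeq_pre hv (by omega)
  have hw' : IsSeq n (pre w 1) := isSeq_pre hw (by omega)
  obtain ⟨u, hu⟩ := exists_good hn hF hv'
  have e1 : F (E (pre v 1)) = E (pre w 1) := by
    rw [E_pre hv le_rfl (by omega), E_pre hw le_rfl (by omega)]
    exact good_A hn hF h
  have e2 : F (E (pre v 1)) = E u := by
    have := hu.2.2 0
    rwa [E_rot_zero, E_rot_zero] at this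
  have e3 : E u = E (pre w 1) := by rw [← e2, e1]
  rcases seq_unique h3 hu.2.1 hw' e3 with h4 | h4
  · exact good_congr hu (fun _ _ => rfl) h4
  · exfalso
    have e4 := good_A hn hF hu
    rw [← E_pre hv' le_rfl (by omega), ← E_pre hu.2.1 le_rfl (by omega)] at e4
    have e5 : E (pre (pre v 1) 1) = E v := by
      apply E_congr
      intro k hk
      unfold pre
      by_cases hk1 : k ≤ 1
      · rw [if_pos hk1, if_pos (by omega), show 1 - (1 - k) = k by omega]
      · rw [if_neg hk1, if_neg hk1]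
    have e6 : F (E v) = E w := by
      have := h.2.2 0
      rwa [E_rot_zero, E_rot_zero] at this
    rw [e5, e6] at e4
    have e7 : ed (pre u 1) 1 ∈ E w := by
      rw [e4]; exact ed_mem (by omega)
    have e8 : ed (pre u 1) 1 = s(w (n - 1), w (n - 3)) := by
      rw [ed]
      have a1 : pre u 1 1 = w (n - 1) := by
        unfold pre
        rw [if_pos le_rfl, Nat.sub_self, h4 0 (by omega)]
        unfold rev pre
        rw [if_neg (by omega), Nat.sub_zero]
      have a2 : pre u 1 (1 + 1) = w (n - 3) := by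
        unfold pre
        rw [if_neg (by omega), h4 (1 + 1) (by omega)]
        unfold rev pre
        by_cases h5 : n = 4
        · omega
        · rw [if_neg (by omega)]
          congr 1
      rw [a1, a2]
    rw [e8, pair_mem hw (by omega) (by omega)] at e7
    omega

end Pool.Agent.X225.Pg
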