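import Mathlib

/-! Spanning paths of `K_n` as edge sets: sequences, elementary obstructions. -/

namespace Pool.Agent.X225.Pg

open Finset

variable {n : ℕ}

/-- `v 0, …, v (n-1)` lists all vertices once. -/
def IsSeq (n : ℕ) (v : ℕ → Fin n) : Prop :=
  (∀ i < n, ∀ j < n, v i = v j → i = j) ∧ ∀ x : Fin n, ∃ k < n, v k = x

/-- The `k`-th edge. -/
def ed (v : ℕ → Fin n) (k : ℕ) : Sym2 (Fin n) := s(v k, v (k + 1))

/-- The edge set of the path `v 0, …, v (n-1)`. -/
def E (v : ℕ → Fin n) : Finset (Sym2 (Fin n)) := (Finset.range (n - 1)).image (ed v)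

/-- Edge sets of spanning paths. -/
def IsP (X : Finset (Sym2 (Fin n))) : Prop := ∃ v, IsSeq n v ∧ X = E v

/-- Adjacency in the path graph. -/
def ad (X Y : Finset (Sym2 (Fin n))) : Prop := (X ∩ Y).card + 2 = n

lemma ad_comm {X Y : Finset (Sym2 (Fin n))} : ad X Y ↔ ad Y X := by
  unfold ad; rw [Finset.inter_comm]

lemma mem_E {v : ℕ → Fin n} {e : Sym2 (Fin n)} : e ∈ E v ↔ ∃ k, k + 1 < n ∧ ed v k = e := by
  unfold E
  rw [Finset.mem_image]
  constructor
  · rintro ⟨k, hk, h⟩
    rw [Finset.mem_range] at hk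
    exact ⟨k, by omega, h⟩
  · rintro ⟨k, hk, h⟩
    exact ⟨k, by rw [Finset.mem_range]; omega, h⟩

lemma ed_mem {v : ℕ → Fin n} {k : ℕ} (hk : k + 1 < n) : ed v k ∈ E v := mem_E.2 ⟨k, hk, rfl⟩

lemma pair_eq {v : ℕ → Fin n} (hv : IsSeq n v) {i j k l : ℕ} (hi : i < n) (hj : j < n)
    (hk : k < n) (hl : l < n) :
    s(v i, v j) = s(v k, v l) ↔ (i = k ∧ j = l) ∨ (i = l ∧ j = k) := by
  rw [Sym2.eq_iff]
  constructor
  · rintro (⟨h1, h2⟩ | ⟨h1, h2⟩)
    · exact Or.inl ⟨hv.1 _ hi _ hk h1, hv.1 _ hj _ hl h2⟩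
    · exact Or.inr ⟨hv.1 _ hi _ hl h1, hv.1 _ hj _ hk h2⟩
  · rintro (⟨rfl, rfl⟩ | ⟨rfl, rfl⟩)
    · exact Or.inl ⟨rfl, rfl⟩
    · exact Or.inr ⟨rfl, rfl⟩

lemma pair_mem {v : ℕ → Fin n} (hv : IsSeq n v) {i j : ℕ} (hi : i < n) (hj : j < n) :
    s(v i, v j) ∈ E v ↔ i + 1 = j ∨ j + 1 = i := by
  rw [mem_E]
  constructor
  · rintro ⟨k, hk, h⟩
    rw [ed, pair_eq hv (by omega) hk hi hj] at h
    omega
  · rintro (h | h)
    · exact ⟨i, by omega, by rw [ed, h]⟩
    · exact ⟨j, by omega, by rw [ed, h, Sym2.eq_swap]⟩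

lemma ed_inj {v : ℕ → Fin n} (hv : IsSeq n v) {i j : ℕ} (hi : i + 1 < n) (hj : j + 1 < n) :
    ed v i = ed v j ↔ i = j := by
  rw [ed, ed, pair_eq hv (by omega) hi (by omega) hj]
  omega

lemma card_E {v : ℕ → Fin n} (hv : IsSeq n v) : (E v).card = n - 1 := by
  unfold E
  rw [Finset.card_image_of_injOn, Finset.card_range]
  intro i hi j hj h
  simp only [Finset.coe_range, Set.mem_Iio] at hi hj
  exact (ed_inj hv (by omega) (by omega)).1 h

lemma IsP.card {X : Finset (Sym2 (Fin n))} (hX : IsP X) : X.card = n - 1 := by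
  obtain ⟨v, hv, rfl⟩ := hX
  exact card_E hv

/-- No vertex of degree three. -/
lemma deg {X : Finset (Sym2 (Fin n))} (hX : IsP X) {x a b c : Fin n} (ha : s(x, a) ∈ X)
    (hb : s(x, b) ∈ X) (hc : s(x, c) ∈ X) : a = b ∨ a = c ∨ b = c := by
  obtain ⟨v, hv, rfl⟩ := hX
  obtain ⟨i, hi, rfl⟩ := hv.2 x
  obtain ⟨j, hj, rfl⟩ := hv.2 a
  obtain ⟨k, hk, rfl⟩ := hv.2 b
  obtain ⟨l, hl, rfl⟩ := hv.2 c
  rw [pair_mem hv hi hj] at ha
  rw [pair_mem hv hi hk] at hb
  rw [pair_mem hv hi hl] at hc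
  have : j = k ∨ j = l ∨ k = l := by omega
  rcases this with h | h | h
  · left; rw [h]
  · right; left; rw [h]
  · right; right; rw [h]

/-- Connectedness. -/
lemma conn {X : Finset (Sym2 (Fin n))} (hX : IsP X) (S : Fin n → Prop) {a b : Fin n} (ha : S a)
    (hb : ¬ S b) : ∃ x y, S x ∧ ¬ S y ∧ s(x, y) ∈ X := by
  obtain ⟨v, hv, rfl⟩ := hX
  by_contra hcon
  push Not at hcon
  have step : ∀ k, k + 1 < n → (S (v k) ↔ S (v (k + 1))) := by
    intro k hk
    constructor
    · intro h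
      by_contra h'
      exact hcon _ _ h h' (ed_mem hk)
    · intro h
      by_contra h'
      exact hcon _ _ h h' (by rw [Sym2.eq_swap]; exact ed_mem hk)
  have all : ∀ k, k < n → (S (v k) ↔ S (v 0)) := by
    intro k
    induction k with
    | zero => intro _; rfl
    | succ k ih =>
      intro hk
      rw [← step k hk]
      exact ih (by omega)
  obtain ⟨i, hi, rfl⟩ := hv.2 a
  obtain ⟨j, hj, rfl⟩ := hv.2 b
  exact hb ((all j hj).2 ((all i hi).1 ha))

lemma not_loop {X : Finset (Sym2 (Fin n))} (hX : IsP X) (x : Fin n) : s(x, x) ∉ X := by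
  obtain ⟨v, hv, rfl⟩ := hX
  obtain ⟨i, hi, rfl⟩ := hv.2 x
  rw [pair_mem hv hi hi]
  omega

/-- Exchange. -/
lemma exch {X Y : Finset (Sym2 (Fin n))} (h2 : 2 ≤ n) (hX : X.card = n - 1) (hY : Y.card = n - 1)
    (h : ad X Y) : ∃ a ∈ X, ∃ b, b ∉ X ∧ Y = insert b (X.erase a) := by
  unfold ad at h
  have h1 : (X \ Y).card = 1 := by
    have := Finset.card_sdiff_add_card_inter X Y
    omega
  have h3 : (Y \ X).card = 1 := by
    have := Finset.card_sdiff_add_card_inter Y X
    rw [Finset.inter_comm] at this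
    omega
  obtain ⟨a, ha⟩ := Finset.card_eq_one.1 h1
  obtain ⟨b, hb⟩ := Finset.card_eq_one.1 h3
  have ha' : a ∈ X \ Y := by rw [ha]; exact Finset.mem_singleton_self _
  have hb' : b ∈ Y \ X := by rw [hb]; exact Finset.mem_singleton_self _
  rw [Finset.mem_sdiff] at ha' hb'
  refine ⟨a, ha'.1, b, hb'.2, ?_⟩
  ext e
  rw [Finset.mem_insert, Finset.mem_erase]
  constructor
  · intro he
    by_cases heX : e ∈ X
    · exact Or.inr ⟨by rintro rfl; exact ha'.2 he, heX⟩
    · left
      have : e ∈ Y \ X := Finset.mem_sdiff.2 ⟨he, heX⟩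
      rw [hb] at this
      exact Finset.mem_singleton.1 this
  · rintro (rfl | ⟨h4, h5⟩)
    · exact hb'.1
    · by_contra h6
      have : e ∈ X \ Y := Finset.mem_sdiff.2 ⟨h5, h6⟩
      rw [ha] at this
      exact h4 (Finset.mem_singleton.1 this)

/-- Two one-step modifications of the same set. -/
lemma ad_ins {X : Finset (Sym2 (Fin n))} (h2 : 3 ≤ n) (hX : X.card = n - 1)
    {a b f g : Sym2 (Fin n)} (ha : a ∈ X) (hb : b ∈ X) (hf : f ∉ X) (hg : g ∉ X) :
    ad (insert f (X.erase a)) (insert g (X.erase b)) ↔ (a = b ∧ f ≠ g) ∨ (a ≠ b ∧ f = g) := by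
  unfold ad
  have hcb : ((X.erase a).erase b).card + (if a = b then 1 else 2) + 1 = n := by
    by_cases hab : a = b
    · subst hab
      rw [if_pos rfl, Finset.erase_idem, Finset.card_erase_of_mem ha]
      omega
    · rw [if_neg hab, Finset.card_erase_of_mem (Finset.mem_erase.2 ⟨Ne.symm hab, hb⟩),
        Finset.card_erase_of_mem ha]
      omega
  by_cases hfg : f = g
  · subst hfg
    have : insert f (X.erase a) ∩ insert f (X.erase b) = insert f ((X.erase a).erase b) := by
      ext e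
      simp only [Finset.mem_inter, Finset.mem_insert, Finset.mem_erase]
      tauto
    rw [this, Finset.card_insert_of_notMem (by simp [hf])]
    by_cases hab : a = b
    · rw [if_pos hab] at hcb
      simp only [hab, ne_eq, not_true_eq_false, and_false, false_and, or_false, iff_false]
      rw [hab] at hcb
      omega
    · rw [if_neg hab] at hcb
      simp only [hab, false_and, ne_eq, not_false_eq_true, true_and, false_or, iff_true]
      omega
  · have : insert f (X.erase a) ∩ insert g (X.erase b) = (X.erase a).erase b := by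
      ext e
      simp only [Finset.mem_inter, Finset.mem_insert, Finset.mem_erase]
      constructor
      · rintro ⟨h1 | h1, h3 | h3⟩
        · exact absurd (h1.symm.trans h3) hfg
        · exact absurd (h1 ▸ h3.2) hf
        · exact absurd (h3 ▸ h1.2) hg
        · tauto
      · rintro ⟨h1, h3, h4⟩
        exact ⟨Or.inr ⟨h3, h4⟩, Or.inr ⟨h1, h4⟩⟩
    rw [this]
    by_cases hab : a = b
    · rw [if_pos hab] at hcb
      simp only [hab, ne_eq, hfg, not_false_eq_true, and_self, not_true_eq_false, or_false,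
        iff_true]
      rw [hab] at hcb
      omega
    · rw [if_neg hab] at hcb
      simp only [hab, false_and, hfg, and_false, or_self, iff_false]
      omega

lemma ad_ins_self {X : Finset (Sym2 (Fin n))} (h2 : 3 ≤ n) (hX : X.card = n - 1)
    {a f : Sym2 (Fin n)} (ha : a ∈ X) (hf : f ∉ X) : ad X (insert f (X.erase a)) := by
  unfold ad
  have : X ∩ insert f (X.erase a) = X.erase a := by
    ext e
    simp only [Finset.mem_inter, Finset.mem_insert, Finset.mem_erase]
    constructor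
    · rintro ⟨h1, h3 | h3⟩
      · exact absurd (h3 ▸ h1) hf
      · exact h3
    · rintro ⟨h1, h3⟩
      exact ⟨h3, Or.inr ⟨h1, h3⟩⟩
  rw [this, Finset.card_erase_of_mem ha]
  omega

lemma card_ins {X : Finset (Sym2 (Fin n))} (h2 : 3 ≤ n) (hX : X.card = n - 1)
    {a f : Sym2 (Fin n)} (ha : a ∈ X) (hf : f ∉ X) : (insert f (X.erase a)).card = n - 1 := by
  rw [Finset.card_insert_of_notMem (by simp [hf]), Finset.card_erase_of_mem ha]
  omega

/-- Classification of the neighbours. -/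
lemma classify {v : ℕ → Fin n} (hn : 3 ≤ n) (hv : IsSeq n v) {X : Finset (Sym2 (Fin n))}
    (hX : IsP X) (h : ad (E v) X) :
    ∃ i f, i + 1 < n ∧ f ∉ E v ∧ X = insert f ((E v).erase (ed v i)) ∧
      (f = s(v 0, v (i + 1)) ∨ f = s(v i, v (n - 1)) ∨ f = s(v 0, v (n - 1))) := by
  obtain ⟨a, ha, f, hf, hXe⟩ := exch (by omega) (card_E hv) hX.card h
  obtain ⟨i, hi, rfl⟩ := mem_E.1 ha
  refine ⟨i, f, hi, hf, hXe, ?_⟩
  obtain ⟨x, y, ⟨k, hk, rfl⟩, hy, hxy⟩ := conn hX (fun x => ∃ k ≤ i, v k = x) (a := v 0)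
    (b := v (i + 1)) ⟨0, by omega, rfl⟩ (by
      rintro ⟨k, hk, h⟩
      have := hv.1 k (by omega) (i + 1) hi h
      omega)
  obtain ⟨l, hl, rfl⟩ := hv.2 y
  have hil : i < l := by
    by_contra hcon
    exact hy ⟨l, by omega, rfl⟩
  have hfx : s(v k, v l) = f := by
    rw [hXe, Finset.mem_insert, Finset.mem_erase] at hxy
    rcases hxy with h | ⟨h3, h4⟩
    · exact h
    · exfalso
      rw [pair_mem hv (by omega) hl] at h4
      apply h3
      have h5 : k = i := by omega
      have h6 : l = i + 1 := by omega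
      rw [h5, h6, ed]
  have hin : ∀ j, j + 1 < n → j ≠ i → ed v j ∈ X := by
    intro j hj hji
    rw [hXe, Finset.mem_insert, Finset.mem_erase]
    exact Or.inr ⟨fun h => hji ((ed_inj hv hj hi).1 h), ed_mem hj⟩
  have hfX : s(v k, v l) ∈ X := by rw [hfx, hXe]; exact Finset.mem_insert_self _ _
  have hk' : k = 0 ∨ k = i := by
    by_contra hcon
    push Not at hcon
    obtain ⟨m, rfl⟩ : ∃ m, k = m + 1 := ⟨k - 1, by omega⟩
    have h1 : s(v (m + 1), v m) ∈ X := by
      rw [Sym2.eq_swap]; exact hin m (by omega) (by omega)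
    have h3 : s(v (m + 1), v (m + 2)) ∈ X := hin (m + 1) (by omega) (by omega)
    rcases deg hX h1 h3 hfX with h | h | h
    · have := hv.1 _ (by omega) _ (by omega) h; omega
    · have := hv.1 _ (by omega) _ (by omega) h; omega
    · have := hv.1 _ (by omega) _ (by omega) h; omega
  have hl' : l = i + 1 ∨ l = n - 1 := by
    by_contra hcon
    push Not at hcon
    obtain ⟨m, rfl⟩ : ∃ m, l = m + 1 := ⟨l - 1, by omega⟩
    have h1 : s(v (m + 1), v m) ∈ X := by
      rw [Sym2.eq_swap]; exact hin m (by omega) (by omega)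
    have h3 : s(v (m + 1), v (m + 2)) ∈ X := hin (m + 1) (by omega) (by omega)
    rw [Sym2.eq_swap] at hfX
    rcases deg hX h1 h3 hfX with h | h | h
    · have := hv.1 _ (by omega) _ (by omega) h; omega
    · have := hv.1 _ (by omega) _ (by omega) h; omega
    · have := hv.1 _ (by omega) _ (by omega) h; omega
  rcases hk' with rfl | rfl <;> rcases hl' with rfl | rfl
  · left; exact hfx.symm
  · right; right; exact hfx.symm
  · exfalso; exact hf (hfx ▸ ed_mem hi)
  · right; left; exact hfx.symm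

end Pool.Agent.X225.Pg
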