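import Pool.Agent.X225.Pg.Moves

/-! Local structure of the path graph. -/

namespace Pool.Agent.X225.Pg

open Finset

variable {n : ℕ}

lemma nbr {v : ℕ → Fin n} (hn : 3 ≤ n) (hv : IsSeq n v) {X : Finset (Sym2 (Fin n))}
    (hX : IsP X) (h : ad (E v) X) :
    (∃ i, i + 1 < n ∧ X = R v i) ∨ (∃ i, 1 ≤ i ∧ i + 2 < n ∧ X = A v i) ∨
      (∃ i, 1 ≤ i ∧ i + 2 < n ∧ X = B v i) := by
  obtain ⟨i, f, hi, hf, hXe, h1 | h1 | h1⟩ := classify hn hv hX h
  · subst h1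
    have hi1 : 1 ≤ i := by
      by_contra hcon
      apply hf
      have : i = 0 := by omega
      subst this
      exact ed_mem hi
    by_cases h2 : i + 2 < n
    · exact Or.inr (Or.inl ⟨i, hi1, h2, hXe⟩)
    · left
      refine ⟨i, hi, ?_⟩
      rw [hXe, R, show i + 1 = n - 1 by omega]
  · subst h1
    have hi1 : i + 2 < n := by
      by_contra hcon
      apply hf
      have : n - 1 = i + 1 := by omega
      rw [this]
      exact ed_mem hi
    by_cases h2 : 1 ≤ i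
    · exact Or.inr (Or.inr ⟨i, h2, hi1, hXe⟩)
    · left
      refine ⟨i, hi, ?_⟩
      have : i = 0 := by omega
      subst this
      rw [hXe, R]
  · subst h1
    exact Or.inl ⟨i, hi, hXe⟩

lemma ad_R {v : ℕ → Fin n} (hn : 3 ≤ n) (hv : IsSeq n v) {i : ℕ} (hi : i + 1 < n) :
    ad (E v) (R v i) := ad_ins_self hn (card_E hv) (ed_mem hi) (end_not_mem hn hv)

lemma ad_A {v : ℕ → Fin n} (hn : 3 ≤ n) (hv : IsSeq n v) {i : ℕ} (h1 : 1 ≤ i) (hi : i + 1 < n) :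
    ad (E v) (A v i) := ad_ins_self hn (card_E hv) (ed_mem hi) (a_not_mem hv h1 hi)

lemma ad_B {v : ℕ → Fin n} (hn : 3 ≤ n) (hv : IsSeq n v) {i : ℕ} (hi : i + 2 < n) :
    ad (E v) (B v i) := ad_ins_self hn (card_E hv) (ed_mem (by omega)) (b_not_mem hv hi)

lemma common_A {v : ℕ → Fin n} (hn : 3 ≤ n) (hv : IsSeq n v) {i : ℕ} (h1 : 1 ≤ i)
    (h2 : i + 2 < n) {X : Finset (Sym2 (Fin n))} (hX : IsP X) (h : ad (E v) X)
    (h' : ad (A v i) X) : X = R v i ∨ X = B v i := by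
  rcases nbr hn hv hX h with ⟨k, hk, rfl⟩ | ⟨k, hk1, hk, rfl⟩ | ⟨k, hk1, hk, rfl⟩
  · rw [A, R, ad_ins hn (card_E hv) (ed_mem (by omega)) (ed_mem (by omega))
      (a_not_mem hv h1 (by omega)) (end_not_mem hn hv), ed_inj hv (by omega) (by omega),
      pair_eq hv (by omega) (by omega) (by omega) (by omega)] at h'
    rcases h' with ⟨rfl, _⟩ | ⟨_, h3⟩
    · exact Or.inl rfl
    · omega
  · rw [A, A, ad_ins hn (card_E hv) (ed_mem (by omega)) (ed_mem (by omega))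
      (a_not_mem hv h1 (by omega)) (a_not_mem hv hk1 (by omega)),
      ed_inj hv (by omega) (by omega), pair_eq hv (by omega) (by omega) (by omega) (by omega)] at h'
    rcases h' with ⟨rfl, h3⟩ | ⟨h4, h3⟩
    · exact absurd rfl h3
    · exact absurd (congrArg (ed v) (show i = k by omega)) h4
  · rw [A, B, ad_ins hn (card_E hv) (ed_mem (by omega)) (ed_mem (by omega))
      (a_not_mem hv h1 (by omega)) (b_not_mem hv (by omega)),
      ed_inj hv (by omega) (by omega), pair_eq hv (by omega) (by omega) (by omega) (by omega)] at h'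
    rcases h' with ⟨rfl, h3⟩ | ⟨h4, h3⟩
    · exact Or.inr rfl
    · omega

lemma common_B {v : ℕ → Fin n} (hn : 3 ≤ n) (hv : IsSeq n v) {i : ℕ} (h1 : 1 ≤ i)
    (h2 : i + 2 < n) {X : Finset (Sym2 (Fin n))} (hX : IsP X) (h : ad (E v) X)
    (h' : ad (B v i) X) : X = R v i ∨ X = A v i := by
  rcases nbr hn hv hX h with ⟨k, hk, rfl⟩ | ⟨k, hk1, hk, rfl⟩ | ⟨k, hk1, hk, rfl⟩
  · rw [B, R, ad_ins hn (card_E hv) (ed_mem (by omega)) (ed_mem (by omega))
      (b_not_mem hv (by omega)) (end_not_mem hn hv), ed_inj hv (by omega) (by omega),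
      pair_eq hv (by omega) (by omega) (by omega) (by omega)] at h'
    rcases h' with ⟨rfl, _⟩ | ⟨_, h3⟩
    · exact Or.inl rfl
    · omega
  · rw [B, A, ad_ins hn (card_E hv) (ed_mem (by omega)) (ed_mem (by omega))
      (b_not_mem hv (by omega)) (a_not_mem hv hk1 (by omega)),
      ed_inj hv (by omega) (by omega), pair_eq hv (by omega) (by omega) (by omega) (by omega)] at h'
    rcases h' with ⟨rfl, h3⟩ | ⟨h4, h3⟩
    · exact Or.inr rfl
    · omega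
  · rw [B, B, ad_ins hn (card_E hv) (ed_mem (by omega)) (ed_mem (by omega))
      (b_not_mem hv (by omega)) (b_not_mem hv (by omega)),
      ed_inj hv (by omega) (by omega), pair_eq hv (by omega) (by omega) (by omega) (by omega)] at h'
    rcases h' with ⟨rfl, h3⟩ | ⟨h4, h3⟩
    · exact absurd rfl h3
    · exact absurd (congrArg (ed v) (show i = k by omega)) h4

lemma common_R {v : ℕ → Fin n} (hn : 3 ≤ n) (hv : IsSeq n v) {i : ℕ}
    (h2 : i + 1 < n) {X : Finset (Sym2 (Fin n))} (hX : IsP X) (h : ad (E v) X)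
    (h' : ad (R v i) X) :
    (∃ k, k + 1 < n ∧ X = R v k) ∨ (1 ≤ i ∧ i + 2 < n ∧ (X = A v i ∨ X = B v i)) := by
  rcases nbr hn hv hX h with ⟨k, hk, rfl⟩ | ⟨k, hk1, hk, rfl⟩ | ⟨k, hk1, hk, rfl⟩
  · exact Or.inl ⟨k, hk, rfl⟩
  · rw [R, A, ad_ins hn (card_E hv) (ed_mem (by omega)) (ed_mem (by omega))
      (end_not_mem hn hv) (a_not_mem hv hk1 (by omega)),
      ed_inj hv (by omega) (by omega), pair_eq hv (by omega) (by omega) (by omega) (by omega)] at h'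
    rcases h' with ⟨rfl, h3⟩ | ⟨h4, h3⟩
    · exact Or.inr ⟨hk1, hk, Or.inl rfl⟩
    · omega
  · rw [R, B, ad_ins hn (card_E hv) (ed_mem (by omega)) (ed_mem (by omega))
      (end_not_mem hn hv) (b_not_mem hv (by omega)),
      ed_inj hv (by omega) (by omega), pair_eq hv (by omega) (by omega) (by omega) (by omega)] at h'
    rcases h' with ⟨rfl, h3⟩ | ⟨h4, h3⟩
    · exact Or.inr ⟨hk1, hk, Or.inr rfl⟩
    · omega

/-- Adjacent with at least three common neighbours. -/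
def cyc (X Y : Finset (Sym2 (Fin n))) : Prop :=
  ad X Y ∧ ∃ Z₁ Z₂ Z₃, (IsP Z₁ ∧ ad X Z₁ ∧ ad Y Z₁) ∧ (IsP Z₂ ∧ ad X Z₂ ∧ ad Y Z₂) ∧
    (IsP Z₃ ∧ ad X Z₃ ∧ ad Y Z₃) ∧ Z₁ ≠ Z₂ ∧ Z₁ ≠ Z₃ ∧ Z₂ ≠ Z₃

/-- `cyc`-adjacent with all common neighbours `cyc`-adjacent. -/
def near (X Y : Finset (Sym2 (Fin n))) : Prop :=
  cyc X Y ∧ ∀ Z, IsP Z → ad X Z → ad Y Z → cyc X Z

lemma not_cyc_A {v : ℕ → Fin n} (hn : 3 ≤ n) (hv : IsSeq n v) {i : ℕ} (h1 : 1 ≤ i)
    (h2 : i + 2 < n) : ¬ cyc (E v) (A v i) := by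
  rintro ⟨_, Z₁, Z₂, Z₃, ⟨a1, a2, a3⟩, ⟨b1, b2, b3⟩, ⟨c1, c2, c3⟩, d1, d2, d3⟩
  rcases common_A hn hv h1 h2 a1 a2 a3 with rfl | rfl <;>
  rcases common_A hn hv h1 h2 b1 b2 b3 with rfl | rfl <;>
  rcases common_A hn hv h1 h2 c1 c2 c3 with rfl | rfl <;>
  first | exact d1 rfl | exact d2 rfl | exact d3 rfl

lemma not_cyc_B {v : ℕ → Fin n} (hn : 3 ≤ n) (hv : IsSeq n v) {i : ℕ} (h1 : 1 ≤ i)
    (h2 : i + 2 < n) : ¬ cyc (E v) (B v i) := by
  rintro ⟨_, Z₁, Z₂, Z₃, ⟨a1, a2, a3⟩, ⟨b1, b2, b3⟩, ⟨c1, c2, c3⟩, d1, d2, d3⟩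
  rcases common_B hn hv h1 h2 a1 a2 a3 with rfl | rfl <;>
  rcases common_B hn hv h1 h2 b1 b2 b3 with rfl | rfl <;>
  rcases common_B hn hv h1 h2 c1 c2 c3 with rfl | rfl <;>
  first | exact d1 rfl | exact d2 rfl | exact d3 rfl

lemma ad_RR {v : ℕ → Fin n} (hn : 3 ≤ n) (hv : IsSeq n v) {i j : ℕ} (hi : i + 1 < n)
    (hj : j + 1 < n) (hij : i ≠ j) : ad (R v i) (R v j) := by
  rw [R, R, ad_ins hn (card_E hv) (ed_mem hi) (ed_mem hj) (end_not_mem hn hv)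
    (end_not_mem hn hv)]
  exact Or.inr ⟨fun h => hij ((ed_inj hv hi hj).1 h), rfl⟩

lemma R_ne {v : ℕ → Fin n} (hn : 3 ≤ n) (hv : IsSeq n v) {i j : ℕ} (hi : i + 1 < n)
    (hj : j + 1 < n) (hij : i ≠ j) : R v i ≠ R v j := by
  intro h
  have h1 := ad_RR hn hv hi hj hij
  rw [h] at h1
  unfold ad at h1
  rw [Finset.inter_self, (isP_R hn hv hj).card] at h1
  omega

lemma cyc_R {v : ℕ → Fin n} (hn : 5 ≤ n) (hv : IsSeq n v) {i : ℕ} (hi : i + 1 < n) :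
    cyc (E v) (R v i) := by
  have h3 : 3 ≤ n := by omega
  obtain ⟨a, b, c, ha, hb, hc, hai, hbi, hci, hab, hac, hbc⟩ : ∃ a b c : ℕ, a + 1 < n ∧ b + 1 < n ∧
      c + 1 < n ∧ i ≠ a ∧ i ≠ b ∧ i ≠ c ∧ a ≠ b ∧ a ≠ c ∧ b ≠ c := by
    rcases Nat.lt_or_ge i 3 with h | h
    · interval_cases i
      · exact ⟨1, 2, 3, by omega, by omega, by omega, by omega, by omega, by omega, by omega,
          by omega, by omega⟩
      · exact ⟨0, 2, 3, by omega, by omega, by omega, by omega, by omega, by omega, by omega,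
          by omega, by omega⟩
      · exact ⟨0, 1, 3, by omega, by omega, by omega, by omega, by omega, by omega, by omega,
          by omega, by omega⟩
    · exact ⟨0, 1, 2, by omega, by omega, by omega, by omega, by omega, by omega, by omega,
        by omega, by omega⟩
  exact ⟨ad_R h3 hv hi, R v a, R v b, R v c,
    ⟨isP_R h3 hv ha, ad_R h3 hv ha, ad_RR h3 hv hi ha hai⟩,
    ⟨isP_R h3 hv hb, ad_R h3 hv hb, ad_RR h3 hv hi hb hbi⟩,
    ⟨isP_R h3 hv hc, ad_R h3 hv hc, ad_RR h3 hv hi hc hci⟩,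
    R_ne h3 hv ha hb hab, R_ne h3 hv ha hc hac, R_ne h3 hv hb hc hbc⟩

lemma near_R0 {v : ℕ → Fin n} (hn : 5 ≤ n) (hv : IsSeq n v) : near (E v) (R v 0) := by
  refine ⟨cyc_R hn hv (by omega), ?_⟩
  intro Z hZ h1 h2
  rcases common_R (by omega) hv (by omega) hZ h1 h2 with ⟨k, hk, rfl⟩ | ⟨h, _⟩
  · exact cyc_R hn hv hk
  · omega

lemma ad_RA {v : ℕ → Fin n} (hn : 3 ≤ n) (hv : IsSeq n v) {i : ℕ} (h1 : 1 ≤ i)
    (hi : i + 2 < n) : ad (R v i) (A v i) := by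
  rw [R, A, ad_ins hn (card_E hv) (ed_mem (by omega)) (ed_mem (by omega)) (end_not_mem hn hv)
    (a_not_mem hv h1 (by omega)), ne_eq, pair_eq hv (by omega) (by omega) (by omega) (by omega)]
  left
  refine ⟨rfl, ?_⟩
  omega

lemma ad_RB {v : ℕ → Fin n} (hn : 3 ≤ n) (hv : IsSeq n v) {i : ℕ} (h1 : 1 ≤ i)
    (hi : i + 2 < n) : ad (R v i) (B v i) := by
  rw [R, B, ad_ins hn (card_E hv) (ed_mem (by omega)) (ed_mem (by omega)) (end_not_mem hn hv)
    (b_not_mem hv (by omega)), ne_eq, pair_eq hv (by omega) (by omega) (by omega) (by omega)]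
  left
  refine ⟨rfl, ?_⟩
  omega

lemma near_imp {v : ℕ → Fin n} (hn : 5 ≤ n) (hv : IsSeq n v) {X : Finset (Sym2 (Fin n))}
    (hX : IsP X) (h : near (E v) X) : X = R v 0 ∨ X = R v (n - 2) := by
  have h3 : 3 ≤ n := by omega
  rcases nbr h3 hv hX h.1.1 with ⟨i, hi, rfl⟩ | ⟨i, hi1, hi, rfl⟩ | ⟨i, hi1, hi, rfl⟩
  · by_cases h0 : i = 0
    · left; rw [h0]
    · by_cases h1 : i = n - 2
      · right; rw [h1]
      · exfalso
        exact not_cyc_A h3 hv (by omega) (by omega) (h.2 (A v i)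
          (isP_A hv (by omega) (by omega)) (ad_A h3 hv (by omega) (by omega))
          (ad_RA h3 hv (by omega) (by omega)))
  · exact absurd h.1 (not_cyc_A h3 hv hi1 hi)
  · exact absurd h.1 (not_cyc_B h3 hv hi1 hi)

lemma card_inter_insert (X S : Finset (Sym2 (Fin n))) {a : Sym2 (Fin n)} (ha : a ∉ S) :
    (X ∩ insert a S).card = (X ∩ S).card + (if a ∈ X then 1 else 0) := by
  by_cases h : a ∈ X
  · rw [Finset.inter_insert_of_mem h, Finset.card_insert_of_notMem (by simp [ha]), if_pos h]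
  · rw [Finset.inter_insert_of_notMem h, if_neg h, Nat.add_zero]

lemma two_common {P X : Finset (Sym2 (Fin n))} (hn : 4 ≤ n) (hP : P.card = n - 1)
    (hX : X.card = n - 1) {e₁ e₂ f₁ f₂ : Sym2 (Fin n)} (he₁ : e₁ ∈ P) (he₂ : e₂ ∈ P)
    (he : e₁ ≠ e₂) (hf₁ : f₁ ∉ P) (hf₂ : f₂ ∉ P) (hf : f₁ ≠ f₂)
    (h₁ : ad (insert f₁ (P.erase e₁)) X) (h₂ : ad (insert f₂ (P.erase e₂)) X) :
    (∀ e ∈ P, e ≠ e₁ → e ≠ e₂ → e ∈ X) ∧ (∀ e ∈ X, e ∈ P ∨ e = f₁ ∨ e = f₂) ∧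
      ((e₂ ∈ X ∧ f₁ ∉ X) ∨ (e₂ ∉ X ∧ f₁ ∈ X)) ∧ ((e₁ ∈ X ∧ f₂ ∉ X) ∨ (e₁ ∉ X ∧ f₂ ∈ X)) := by
  set W := (P.erase e₁).erase e₂ with hW
  have hWc : W.card + 3 = n := by
    rw [hW, Finset.card_erase_of_mem (Finset.mem_erase.2 ⟨Ne.symm he, he₂⟩),
      Finset.card_erase_of_mem he₁]
    omega
  have hmem : ∀ e, e ∈ W ↔ e ≠ e₂ ∧ e ≠ e₁ ∧ e ∈ P := by
    intro e
    rw [hW, Finset.mem_erase, Finset.mem_erase]
  have b1 : insert f₁ (P.erase e₁) = insert f₁ (insert e₂ W) := by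
    ext e
    simp only [Finset.mem_insert, Finset.mem_erase, hmem]
    by_cases h : e = e₂
    · subst h
      simp [he₂, Ne.symm he]
    · simp [h]
  have b2 : insert f₂ (P.erase e₂) = insert f₂ (insert e₁ W) := by
    ext e
    simp only [Finset.mem_insert, Finset.mem_erase, hmem]
    by_cases h : e = e₁
    · subst h
      simp [he₁, he]
    · simp [h]
  have n1 : e₂ ∉ W := by rw [hmem]; simp
  have n2 : e₁ ∉ W := by rw [hmem]; simp
  have hf₁e₂ : f₁ ≠ e₂ := fun h => hf₁ (h ▸ he₂)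
  have hf₁e₁ : f₁ ≠ e₁ := fun h => hf₁ (h ▸ he₁)
  have hf₂e₂ : f₂ ≠ e₂ := fun h => hf₂ (h ▸ he₂)
  have hf₂e₁ : f₂ ≠ e₁ := fun h => hf₂ (h ▸ he₁)
  have w1 : f₁ ∉ W := by rw [hmem]; exact fun h => hf₁ h.2.2
  have w2 : f₂ ∉ W := by rw [hmem]; exact fun h => hf₂ h.2.2
  have n3 : f₁ ∉ insert e₂ W := by
    rw [Finset.mem_insert]; rintro (h | h)
    · exact hf₁e₂ h
    · exact w1 h
  have n4 : f₂ ∉ insert e₁ W := by
    rw [Finset.mem_insert]; rintro (h | h)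
    · exact hf₂e₁ h
    · exact w2 h
  unfold ad at h₁ h₂
  rw [b1, Finset.inter_comm, card_inter_insert _ _ n3, card_inter_insert _ _ n1] at h₁
  rw [b2, Finset.inter_comm, card_inter_insert _ _ n4, card_inter_insert _ _ n2] at h₂
  -- the full set
  have n5 : f₁ ∉ insert f₂ (insert e₁ (insert e₂ W)) := by
    simp only [Finset.mem_insert, not_or]
    exact ⟨hf, hf₁e₁, hf₁e₂, w1⟩
  have n6 : f₂ ∉ insert e₁ (insert e₂ W) := by
    simp only [Finset.mem_insert, not_or]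
    exact ⟨hf₂e₁, hf₂e₂, w2⟩
  have n7 : e₁ ∉ insert e₂ W := by
    simp only [Finset.mem_insert, not_or]
    exact ⟨he, n2⟩
  have hT : (X ∩ insert f₁ (insert f₂ (insert e₁ (insert e₂ W)))).card ≤ X.card :=
    Finset.card_le_card Finset.inter_subset_left
  have hT' := hT
  rw [card_inter_insert _ _ n5, card_inter_insert _ _ n6, card_inter_insert _ _ n7,
    card_inter_insert _ _ n1] at hT
  have hWX : (X ∩ W).card ≤ W.card := Finset.card_le_card Finset.inter_subset_right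
  have hWeq : (X ∩ W).card = W.card := by
    split_ifs at h₁ h₂ hT <;> omega
  have hWsub : X ∩ W = W := Finset.eq_of_subset_of_card_le Finset.inter_subset_right hWeq.ge
  have hfull : X ∩ insert f₁ (insert f₂ (insert e₁ (insert e₂ W))) = X := by
    refine Finset.eq_of_subset_of_card_le Finset.inter_subset_left ?_
    rw [card_inter_insert _ _ n5, card_inter_insert _ _ n6, card_inter_insert _ _ n7,
      card_inter_insert _ _ n1]
    split_ifs at h₁ h₂ hT ⊢ <;> omega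
  refine ⟨?_, ?_, ?_, ?_⟩
  · intro e heP h1 h2
    have : e ∈ W := (hmem e).2 ⟨h2, h1, heP⟩
    rw [← hWsub] at this
    exact Finset.mem_of_mem_inter_left this
  · intro e heX
    rw [← hfull] at heX
    have := Finset.mem_of_mem_inter_right heX
    simp only [Finset.mem_insert, hmem] at this
    rcases this with h | h | h | h | h
    · exact Or.inr (Or.inl h)
    · exact Or.inr (Or.inr h)
    · exact Or.inl (h ▸ he₁)
    · exact Or.inl (h ▸ he₂)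
    · exact Or.inl h.2.2
  · by_cases c1 : e₂ ∈ X <;> by_cases c2 : f₁ ∈ X
    · exfalso; rw [if_pos c1, if_pos c2] at h₁; omega
    · exact Or.inl ⟨c1, c2⟩
    · exact Or.inr ⟨c1, c2⟩
    · exfalso; rw [if_neg c1, if_neg c2] at h₁; omega
  · by_cases c1 : e₁ ∈ X <;> by_cases c2 : f₂ ∈ X
    · exfalso; rw [if_pos c1, if_pos c2] at h₂; omega
    · exact Or.inl ⟨c1, c2⟩
    · exact Or.inr ⟨c1, c2⟩
    · exfalso; rw [if_neg c1, if_neg c2] at h₂; omega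

lemma eq_of_all {P X : Finset (Sym2 (Fin n))} (hP : P.card = n - 1) (hX : X.card = n - 1)
    (h : ∀ e ∈ X, e ∈ P) : X = P :=
  Finset.eq_of_subset_of_card_le h (by omega)

end Pool.Agent.X225.Pg
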