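import Pool.Agent.X225.Pg.Auto

/-! The automorphism group of the path graph of `K_n`. -/

namespace Pool.Agent.X225.Pg

open Finset

/-- The edge set of the spanning path `p 0, p 1, …, p (n-1)` of `K_n`. -/
def pathEdges {n : ℕ} (p : Equiv.Perm (Fin n)) : Finset (Sym2 (Fin n)) :=
  Finset.univ.filter fun e => ∃ i j : Fin n, (i : ℕ) + 1 = j ∧ e = s(p i, p j)

/-- The spanning paths of `K_n`, identified with their edge sets. -/
abbrev SpanningPath (n : ℕ) : Type :=
  {X : Finset (Sym2 (Fin n)) // ∃ p : Equiv.Perm (Fin n), X = pathEdges p}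

/-- The path graph of `K_n`: two spanning paths are adjacent when they share `n - 2` edges. -/
def pathGraph (n : ℕ) : SimpleGraph (SpanningPath n) where
  Adj P Q := P ≠ Q ∧ (P.1 ∩ Q.1).card + 2 = n
  symm := ⟨fun P Q h => ⟨h.1.symm, by rw [Finset.inter_comm]; exact h.2⟩⟩
  loopless := ⟨fun P h => h.1 rfl⟩

variable {n : ℕ}

lemma mem_pathEdges {p : Equiv.Perm (Fin n)} {e : Sym2 (Fin n)} :
    e ∈ pathEdges p ↔ ∃ i j : Fin n, (i : ℕ) + 1 = j ∧ e = s(p i, p j) := by
  unfold pathEdges
  rw [Finset.mem_filter]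
  exact ⟨fun h => h.2, fun h => ⟨Finset.mem_univ _, h⟩⟩

/-- The sequence of a permutation. -/
def sq (h0 : 0 < n) (p : Equiv.Perm (Fin n)) : ℕ → Fin n := fun k => p ⟨k % n, Nat.mod_lt _ h0⟩

lemma sq_lt (h0 : 0 < n) (p : Equiv.Perm (Fin n)) {k : ℕ} (hk : k < n) : sq h0 p k = p ⟨k, hk⟩ := by
  unfold sq
  congr 1
  exact Fin.ext (Nat.mod_eq_of_lt hk)

lemma isSeq_sq (h0 : 0 < n) (p : Equiv.Perm (Fin n)) : IsSeq n (sq h0 p) := by
  constructor
  · intro i hi j hj h
    rw [sq_lt h0 p hi, sq_lt h0 p hj] at h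
    exact congrArg Fin.val (p.injective h)
  · intro x
    refine ⟨(p.symm x : Fin n), (p.symm x).2, ?_⟩
    rw [sq_lt h0 p (p.symm x).2]
    exact p.apply_symm_apply x

lemma E_sq (h0 : 0 < n) (p : Equiv.Perm (Fin n)) : E (sq h0 p) = pathEdges p := by
  ext e
  rw [mem_E, mem_pathEdges]
  constructor
  · rintro ⟨k, hk, rfl⟩
    exact ⟨⟨k, by omega⟩, ⟨k + 1, hk⟩, rfl, by rw [ed, sq_lt h0 p hk, sq_lt h0 p (by omega)]⟩
  · rintro ⟨i, j, hij, rfl⟩
    have hj := j.2
    refine ⟨i, by omega, ?_⟩
    rw [ed, sq_lt h0 p i.2, sq_lt h0 p (show (i : ℕ) + 1 < n by omega)]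
    congr 3

lemma exists_perm {v : ℕ → Fin n} (hv : IsSeq n v) :
    ∃ p : Equiv.Perm (Fin n), ∀ i : Fin n, p i = v i := by
  have hb : Function.Bijective (fun i : Fin n => v i) := by
    rw [← Finite.injective_iff_bijective]
    intro i j h
    exact Fin.ext (hv.1 _ i.2 _ j.2 h)
  exact ⟨Equiv.ofBijective _ hb, fun i => rfl⟩

lemma isP_iff (h0 : 0 < n) {X : Finset (Sym2 (Fin n))} :
    IsP X ↔ ∃ p : Equiv.Perm (Fin n), X = pathEdges p := by
  constructor
  · rintro ⟨v, hv, rfl⟩
    obtain ⟨p, hp⟩ := exists_perm hv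
    refine ⟨p, ?_⟩
    rw [← E_sq h0 p]
    apply E_congr
    intro k hk
    rw [sq_lt h0 p hk, hp]
  · rintro ⟨p, rfl⟩
    exact ⟨sq h0 p, isSeq_sq h0 p, (E_sq h0 p).symm⟩

lemma image_pathEdges (σ p : Equiv.Perm (Fin n)) :
    (pathEdges p).image (Sym2.map σ) = pathEdges (σ * p) := by
  ext e
  rw [Finset.mem_image, mem_pathEdges]
  constructor
  · rintro ⟨e', he', rfl⟩
    obtain ⟨i, j, hij, rfl⟩ := mem_pathEdges.1 he'
    exact ⟨i, j, hij, rfl⟩
  · rintro ⟨i, j, hij, rfl⟩
    exact ⟨s(p i, p j), mem_pathEdges.2 ⟨i, j, hij, rfl⟩, rfl⟩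

/-- The action of a permutation on spanning paths. -/
def act (σ : Equiv.Perm (Fin n)) (P : SpanningPath n) : SpanningPath n :=
  ⟨P.1.image (Sym2.map σ), by
    obtain ⟨p, hp⟩ := P.2
    exact ⟨σ * p, by rw [hp, image_pathEdges]⟩⟩

lemma act_mul (σ τ : Equiv.Perm (Fin n)) (P : SpanningPath n) :
    act (σ * τ) P = act σ (act τ P) := by
  apply Subtype.ext
  obtain ⟨p, hp⟩ := P.2
  change P.1.image (Sym2.map (σ * τ)) = (P.1.image (Sym2.map τ)).image (Sym2.map σ)
  rw [hp, image_pathEdges, image_pathEdges, image_pathEdges, mul_assoc]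

lemma act_one (P : SpanningPath n) : act 1 P = P := by
  apply Subtype.ext
  obtain ⟨p, hp⟩ := P.2
  change P.1.image (Sym2.map (1 : Equiv.Perm (Fin n))) = P.1
  rw [hp, image_pathEdges, one_mul]

lemma act_inter (σ : Equiv.Perm (Fin n)) (X Y : Finset (Sym2 (Fin n))) :
    (X.image (Sym2.map σ) ∩ Y.image (Sym2.map σ)).card = (X ∩ Y).card := by
  have hinj : Function.Injective (Sym2.map (σ : Fin n → Fin n)) := Sym2.map.injective σ.injective
  rw [← Finset.image_inter _ _ hinj, Finset.card_image_of_injective _ hinj]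

/-- The automorphism of the path graph induced by a permutation. -/
def permAut : Equiv.Perm (Fin n) →* (pathGraph n ≃g pathGraph n) where
  toFun σ :=
    { toFun := act σ
      invFun := act σ⁻¹
      left_inv := fun P => by rw [← act_mul, inv_mul_cancel, act_one]
      right_inv := fun P => by rw [← act_mul, mul_inv_cancel, act_one]
      map_rel_iff' := by
        intro P Q
        change (act σ P ≠ act σ Q ∧ (P.1.image (Sym2.map σ) ∩ Q.1.image (Sym2.map σ)).card + 2 = n)
          ↔ (P ≠ Q ∧ (P.1 ∩ Q.1).card + 2 = n)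
        rw [act_inter]
        have : act σ P ≠ act σ Q ↔ P ≠ Q := by
          constructor
          · intro h h'
            exact h (by rw [h'])
          · intro h h'
            apply h
            have := congrArg (act σ⁻¹) h'
            rwa [← act_mul, ← act_mul, inv_mul_cancel, act_one, act_one] at this
        rw [this] }
  map_one' := by
    apply RelIso.ext
    intro P
    exact act_one P
  map_mul' := by
    intro σ τ
    apply RelIso.ext
    intro P
    exact act_mul σ τ P

lemma permAut_apply (σ : Equiv.Perm (Fin n)) (P : SpanningPath n) :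
    (permAut σ P).1 = P.1.image (Sym2.map σ) := rfl

lemma permAut_injective (hn : 5 ≤ n) : Function.Injective (permAut (n := n)) := by
  intro σ τ h
  have h0 : 0 < n := by omega
  have key : ∀ p : Equiv.Perm (Fin n), E (sq h0 (σ * p)) = E (sq h0 (τ * p)) := by
    intro p
    have h1 := congrArg (fun f => (f (⟨pathEdges p, p, rfl⟩ : SpanningPath n)).1) h
    change (pathEdges p).image (Sym2.map σ) = (pathEdges p).image (Sym2.map τ) at h1
    rw [image_pathEdges, image_pathEdges] at h1
    rw [E_sq, E_sq, h1]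
  have key2 : ∀ p : Equiv.Perm (Fin n), σ ≠ τ → ∀ k (hk : k < n),
      σ (p ⟨k, hk⟩) = τ (p ⟨n - 1 - k, by omega⟩) := by
    intro p hne k hk
    rcases seq_unique (by omega) (isSeq_sq h0 _) (isSeq_sq h0 _) (key p) with h1 | h1
    · exfalso
      apply hne
      have h2 : σ * p = τ * p := by
        ext i
        have := h1 i i.2
        rw [sq_lt h0 _ i.2, sq_lt h0 _ i.2] at this
        exact congrArg Fin.val this
      exact mul_right_cancel h2
    · have := h1 k hk
      unfold rev at this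
      rw [sq_lt h0 _ hk, sq_lt h0 _ (by omega)] at this
      exact this
  by_contra hne
  have a1 := key2 1 hne 1 (by omega)
  have a2 := key2 (Equiv.swap ⟨0, by omega⟩ ⟨1, by omega⟩) hne 0 (by omega)
  rw [Equiv.swap_apply_left, Equiv.swap_apply_of_ne_of_ne (by
      rw [ne_eq, Fin.mk.injEq]; omega) (by rw [ne_eq, Fin.mk.injEq]; omega)] at a2
  rw [Equiv.Perm.one_apply, Equiv.Perm.one_apply, a2] at a1
  have := congrArg Fin.val (τ.injective a1)
  simp only at this
  omega

lemma good_all (hn : 5 ≤ n) {F : Finset (Sym2 (Fin n)) → Finset (Sym2 (Fin n))} (hF : IsAut F) :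
    ∃ σ : Equiv.Perm (Fin n), ∀ p : Equiv.Perm (Fin n), F (pathEdges p) = pathEdges (σ * p) := by
  have h0 : 0 < n := by omega
  obtain ⟨w, hw⟩ := exists_good hn hF (isSeq_sq h0 1)
  obtain ⟨σ, hσ⟩ := exists_perm hw.2.1
  have hbase : Good F (sq h0 1) (sq h0 (σ * 1)) := by
    refine good_congr hw (fun _ _ => rfl) ?_
    intro k hk
    rw [sq_lt h0 _ hk, mul_one, hσ]
  -- one step to the right
  have hrot : ∀ τ p : Equiv.Perm (Fin n), ∀ k < n,
      rot (sq h0 (τ * p)) 1 k = sq h0 (τ * (p * finRotate n)) k := by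
    intro τ p k hk
    obtain ⟨m, rfl⟩ : ∃ m, n = m + 2 := ⟨n - 2, by omega⟩
    unfold rot
    rw [sq_lt h0 _ hk, sq_lt h0 _ (Nat.mod_lt _ h0)]
    rw [Equiv.Perm.mul_apply, Equiv.Perm.mul_apply, Equiv.Perm.mul_apply, finRotate_succ_apply]
    congr 2
  have hsw : ∀ τ p : Equiv.Perm (Fin n), ∀ k < n,
      pre (sq h0 (τ * p)) 1 k =
        sq h0 (τ * (p * Equiv.swap ⟨0, by omega⟩ ⟨1, by omega⟩)) k := by
    intro τ p k hk
    unfold pre
    by_cases h1 : k ≤ 1
    · rw [if_pos h1, sq_lt h0 _ (show 1 - k < n by omega), sq_lt h0 _ hk, Equiv.Perm.mul_apply,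
        Equiv.Perm.mul_apply, Equiv.Perm.mul_apply]
      congr 2
      rcases Nat.lt_or_ge k 1 with h2 | h2
      · have : k = 0 := by omega
        subst this
        rw [Equiv.swap_apply_left]
      · have : k = 1 := by omega
        subst this
        rw [Equiv.swap_apply_right]
    · rw [if_neg h1, sq_lt h0 _ hk, sq_lt h0 _ hk, Equiv.Perm.mul_apply, Equiv.Perm.mul_apply,
        Equiv.Perm.mul_apply, Equiv.swap_apply_of_ne_of_ne (by
        rw [ne_eq, Fin.mk.injEq]; omega) (by rw [ne_eq, Fin.mk.injEq]; omega)]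
  have hall : ∀ g : Equiv.Perm (Fin n), ∀ p, Good F (sq h0 p) (sq h0 (σ * p)) ↔
      Good F (sq h0 (p * g)) (sq h0 (σ * (p * g))) := by
    intro g
    have hg : g ∈ Subgroup.closure ({finRotate n, Equiv.swap (⟨0, by omega⟩ : Fin n)
        (finRotate n ⟨0, by omega⟩)} : Set (Equiv.Perm (Fin n))) := by
      obtain ⟨m, rfl⟩ : ∃ m, n = m + 2 := ⟨n - 2, by omega⟩
      rw [Equiv.Perm.closure_cycle_adjacent_swap isCycle_finRotate support_finRotate]
      exact Subgroup.mem_top _
    induction hg using Subgroup.closure_induction with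
    | mem x hx =>
      rcases hx with rfl | hx
      · intro p
        have e1 := fun k hk => hrot 1 p k hk
        simp only [one_mul] at e1
        constructor
        · intro h
          exact good_congr (good_rot h 1) e1 (hrot σ p)
        · intro h
          have h2 := good_congr h (fun k hk => (e1 k hk).symm) (fun k hk => (hrot σ p k hk).symm)
          have h4 := good_rot h2 (n - 1)
          rw [rot_rot, rot_rot, show 1 + (n - 1) = 0 + n by omega, rot_add_n, rot_add_n] at h4
          exact good_congr h4 (fun k hk => rot_zero hk) (fun k hk => rot_zero hk)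
      · have hx' : x = Equiv.swap (⟨0, by omega⟩ : Fin n) ⟨1, by omega⟩ := by
          rw [Set.mem_singleton_iff] at hx
          rw [hx]
          obtain ⟨m, rfl⟩ : ∃ m, n = m + 2 := ⟨n - 2, by omega⟩
          rw [finRotate_succ_apply]
          congr 1
        subst hx'
        have step : ∀ p, Good F (sq h0 p) (sq h0 (σ * p)) →
            Good F (sq h0 (p * Equiv.swap (⟨0, by omega⟩ : Fin n) ⟨1, by omega⟩))
              (sq h0 (σ * (p * Equiv.swap (⟨0, by omega⟩ : Fin n) ⟨1, by omega⟩))) := by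
          intro p h
          have e1 := fun k hk => hsw 1 p k hk
          simp only [one_mul] at e1
          exact good_congr (good_pre hn hF h) e1 (hsw σ p)
        intro p
        refine ⟨step p, fun h => ?_⟩
        have := step _ h
        rwa [mul_assoc, Equiv.swap_mul_self, mul_one] at this
    | one => intro p; rw [mul_one]
    | mul x y hx hy ihx ihy =>
      intro p
      rw [ihx p, ihy (p * x), mul_assoc]
    | inv x hx ih =>
      intro p
      rw [ih (p * x⁻¹), mul_assoc, inv_mul_cancel, mul_one]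
  refine ⟨σ, fun p => ?_⟩
  have h1 := (hall p 1).1 hbase
  rw [one_mul] at h1
  have h2 := h1.2.2 0
  rwa [E_rot_zero, E_rot_zero, E_sq, E_sq] at h2

lemma permAut_surjective (hn : 5 ≤ n) : Function.Surjective (permAut (n := n)) := by
  classical
  intro φ
  have h0 : 0 < n := by omega
  set F : Finset (Sym2 (Fin n)) → Finset (Sym2 (Fin n)) := fun X =>
    if h : ∃ p : Equiv.Perm (Fin n), X = pathEdges p then (φ ⟨X, h⟩).1 else X with hFdef
  have hFv : ∀ X (h : ∃ p : Equiv.Perm (Fin n), X = pathEdges p), F X = (φ ⟨X, h⟩).1 := by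
    intro X h
    simp only [hFdef]
    rw [dif_pos h]
  have hF : IsAut F := by
    refine ⟨?_, ?_, ?_, ?_⟩
    · intro X hX
      have h := (isP_iff h0).1 hX
      rw [hFv X h]
      exact (isP_iff h0).2 (φ ⟨X, h⟩).2
    · intro X Y hX hY h
      have h1 := (isP_iff h0).1 hX
      have h2 := (isP_iff h0).1 hY
      rw [hFv X h1, hFv Y h2] at h
      have := φ.injective (Subtype.ext h)
      exact congrArg Subtype.val this
    · intro Y hY
      have h1 := (isP_iff h0).1 hY
      refine ⟨(φ.symm ⟨Y, h1⟩).1, (isP_iff h0).2 (φ.symm ⟨Y, h1⟩).2, ?_⟩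
      rw [hFv _ (φ.symm ⟨Y, h1⟩).2]
      change (φ (φ.symm ⟨Y, h1⟩)).1 = Y
      rw [φ.apply_symm_apply]
    · intro X Y hX hY
      have h1 := (isP_iff h0).1 hX
      have h2 := (isP_iff h0).1 hY
      rw [hFv X h1, hFv Y h2]
      have key : ∀ P Q : SpanningPath n, ad P.1 Q.1 ↔ (pathGraph n).Adj P Q := by
        intro P Q
        constructor
        · intro h
          refine ⟨?_, h⟩
          rintro rfl
          unfold ad at h
          rw [Finset.inter_self, ((isP_iff h0).2 P.2).card] at h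
          omega
        · intro h
          exact h.2
      rw [key, φ.map_adj_iff, ← key]
  obtain ⟨σ, hσ⟩ := good_all hn hF
  refine ⟨σ, ?_⟩
  apply RelIso.ext
  intro P
  obtain ⟨X, p, rfl⟩ := P
  apply Subtype.ext
  change (pathEdges p).image (Sym2.map σ) = _
  rw [image_pathEdges, ← hσ p, hFv _ ⟨p, rfl⟩]

end Pool.Agent.X225.Pg
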