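import Pool.Agent.X225.Pg.Basic

/-! Reversals and rotations of sequences. -/

namespace Pool.Agent.X225.Pg

open Finset

variable {n : ℕ}

/-- Reverse the whole sequence. -/
def rev (v : ℕ → Fin n) : ℕ → Fin n := fun k => v (n - 1 - k)

/-- Reverse the first `i + 1` entries. -/
def pre (v : ℕ → Fin n) (i : ℕ) : ℕ → Fin n := fun k => if k ≤ i then v (i - k) else v k

/-- Reverse the entries after the first `i + 1`. -/
def suf (v : ℕ → Fin n) (i : ℕ) : ℕ → Fin n := fun k => if k ≤ i then v k else v (n + i - k)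

/-- Rotate. -/
def rot (v : ℕ → Fin n) (m : ℕ) : ℕ → Fin n := fun k => v ((k + m) % n)

/-- The three kinds of neighbours. -/
def R (v : ℕ → Fin n) (i : ℕ) : Finset (Sym2 (Fin n)) :=
  insert s(v 0, v (n - 1)) ((E v).erase (ed v i))

/-- Prefix reversal. -/
def A (v : ℕ → Fin n) (i : ℕ) : Finset (Sym2 (Fin n)) :=
  insert s(v 0, v (i + 1)) ((E v).erase (ed v i))

/-- Suffix reversal. -/
def B (v : ℕ → Fin n) (i : ℕ) : Finset (Sym2 (Fin n)) :=
  insert s(v i, v (n - 1)) ((E v).erase (ed v i))

lemma isSeq_of (v w : ℕ → Fin n) (hv : IsSeq n v) (g : ℕ → ℕ) (hg : ∀ k < n, g k < n)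
    (hgi : ∀ i < n, ∀ j < n, g i = g j → i = j) (hgs : ∀ k < n, ∃ l < n, g l = k)
    (hw : ∀ k < n, w k = v (g k)) : IsSeq n w := by
  constructor
  · intro i hi j hj h
    rw [hw i hi, hw j hj] at h
    exact hgi i hi j hj (hv.1 _ (hg i hi) _ (hg j hj) h)
  · intro x
    obtain ⟨k, hk, rfl⟩ := hv.2 x
    obtain ⟨l, hl, h⟩ := hgs k hk
    exact ⟨l, hl, by rw [hw l hl, h]⟩

lemma isSeq_rev {v : ℕ → Fin n} (hv : IsSeq n v) : IsSeq n (rev v) :=
  isSeq_of v _ hv (fun k => n - 1 - k) (by intros; omega) (by intros; omega)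
    (fun k hk => ⟨n - 1 - k, by omega, by omega⟩) (fun _ _ => rfl)

lemma isSeq_pre {v : ℕ → Fin n} (hv : IsSeq n v) {i : ℕ} (hi : i < n) : IsSeq n (pre v i) := by
  refine isSeq_of v _ hv (fun k => if k ≤ i then i - k else k) ?_ ?_ ?_ ?_
  · intro k hk
    split_ifs <;> omega
  · intro a ha b hb
    split_ifs <;> omega
  · intro k hk
    by_cases h : k ≤ i
    · exact ⟨i - k, by omega, by split_ifs <;> omega⟩
    · exact ⟨k, hk, by split_ifs; omega⟩
  · intro k hk
    unfold pre
    split_ifs <;> rfl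

lemma isSeq_suf {v : ℕ → Fin n} (hv : IsSeq n v) {i : ℕ} (hi : i < n) : IsSeq n (suf v i) := by
  refine isSeq_of v _ hv (fun k => if k ≤ i then k else n + i - k) ?_ ?_ ?_ ?_
  · intro k hk
    split_ifs <;> omega
  · intro a ha b hb
    split_ifs <;> omega
  · intro k hk
    by_cases h : k ≤ i
    · exact ⟨k, by omega, by split_ifs; omega⟩
    · exact ⟨n + i - k, by omega, by split_ifs <;> omega⟩
  · intro k hk
    unfold suf
    split_ifs <;> rfl

lemma isSeq_rot {v : ℕ → Fin n} (hv : IsSeq n v) (m : ℕ) : IsSeq n (rot v m) := by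
  refine isSeq_of v _ hv (fun k => (k + m) % n) ?_ ?_ ?_ (fun _ _ => rfl)
  · intro k hk
    exact Nat.mod_lt _ (by omega)
  · intro a ha b hb h
    have : a ≡ b [MOD n] := Nat.ModEq.add_right_cancel' m h
    exact Nat.ModEq.eq_of_lt_of_lt this ha hb
  · intro k hk
    refine ⟨(k + (n - m % n)) % n, Nat.mod_lt _ (by omega), ?_⟩
    have h1 : m % n < n := Nat.mod_lt _ (by omega)
    have h2 : m = n * (m / n) + m % n := (Nat.div_add_mod m n).symm
    rw [Nat.mod_add_mod]
    have h3 : k + (n - m % n) + m = k + n * (m / n + 1) := by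
      rw [Nat.mul_add, Nat.mul_one]
      omega
    rw [h3, Nat.add_mul_mod_self_left, Nat.mod_eq_of_lt hk]

lemma E_congr {v w : ℕ → Fin n} (h : ∀ k < n, v k = w k) : E v = E w := by
  ext e
  rw [mem_E, mem_E]
  constructor
  · rintro ⟨k, hk, rfl⟩
    exact ⟨k, hk, by rw [ed, ed, h k (by omega), h (k + 1) hk]⟩
  · rintro ⟨k, hk, rfl⟩
    exact ⟨k, hk, by rw [ed, ed, h k (by omega), h (k + 1) hk]⟩

lemma isSeq_congr {v w : ℕ → Fin n} (h : ∀ k < n, v k = w k) (hv : IsSeq n v) : IsSeq n w :=
  isSeq_of v w hv id (by intros; assumption) (by intros; assumption)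
    (fun k hk => ⟨k, hk, rfl⟩) (fun k hk => (h k hk).symm)

lemma E_rev {v : ℕ → Fin n} : E (rev v) = E v := by
  ext e
  rw [mem_E, mem_E]
  constructor
  · rintro ⟨k, hk, rfl⟩
    refine ⟨n - 2 - k, by omega, ?_⟩
    rw [ed, ed, Sym2.eq_swap]
    unfold rev
    rw [show n - 1 - (k + 1) = n - 2 - k by omega, show n - 1 - k = n - 2 - k + 1 by omega]
  · rintro ⟨k, hk, rfl⟩
    refine ⟨n - 2 - k, by omega, ?_⟩
    rw [ed, ed, Sym2.eq_swap]
    unfold rev
    rw [show n - 1 - (n - 2 - k + 1) = k by omega, show n - 1 - (n - 2 - k) = k + 1 by omega]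

lemma end_not_mem {v : ℕ → Fin n} (hn : 3 ≤ n) (hv : IsSeq n v) : s(v 0, v (n - 1)) ∉ E v := by
  rw [pair_mem hv (by omega) (by omega)]
  omega

lemma a_not_mem {v : ℕ → Fin n} (hv : IsSeq n v) {i : ℕ} (h1 : 1 ≤ i) (h2 : i + 1 < n) :
    s(v 0, v (i + 1)) ∉ E v := by
  rw [pair_mem hv (by omega) (by omega)]
  omega

lemma b_not_mem {v : ℕ → Fin n} (hv : IsSeq n v) {i : ℕ} (h2 : i + 2 < n) :
    s(v i, v (n - 1)) ∉ E v := by
  rw [pair_mem hv (by omega) (by omega)]
  omega

lemma E_eq_of_subset {w : ℕ → Fin n} (hw : IsSeq n w) {Y : Finset (Sym2 (Fin n))}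
    (hY : Y.card = n - 1) (h : ∀ k, k + 1 < n → ed w k ∈ Y) : E w = Y := by
  refine Finset.eq_of_subset_of_card_le ?_ (by rw [hY, card_E hw])
  intro e he
  obtain ⟨k, hk, rfl⟩ := mem_E.1 he
  exact h k hk

lemma E_pre {v : ℕ → Fin n} (hv : IsSeq n v) {i : ℕ} (h1 : 1 ≤ i) (h2 : i + 1 < n) :
    E (pre v i) = A v i := by
  refine E_eq_of_subset (isSeq_pre hv (by omega))
    (card_ins (by omega) (card_E hv) (ed_mem h2) (a_not_mem hv h1 h2)) ?_
  intro k hk
  unfold A
  rw [Finset.mem_insert, Finset.mem_erase]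
  rcases Nat.lt_trichotomy k i with h | h | h
  · right
    obtain ⟨m, rfl⟩ : ∃ m, i = k + 1 + m := ⟨i - (k + 1), by omega⟩
    have he : ed (pre v (k + 1 + m)) k = ed v m := by
      rw [ed, ed, Sym2.eq_swap]
      unfold pre
      rw [if_pos (by omega), if_pos (by omega), show k + 1 + m - (k + 1) = m by omega,
        show k + 1 + m - k = m + 1 by omega]
    rw [he]
    exact ⟨fun h => by have := (ed_inj hv (by omega) (by omega)).1 h; omega, ed_mem (by omega)⟩
  · left
    subst h
    rw [ed]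
    unfold pre
    rw [if_pos le_rfl, if_neg (by omega), Nat.sub_self]
  · right
    have he : ed (pre v i) k = ed v k := by
      rw [ed, ed]
      unfold pre
      rw [if_neg (by omega), if_neg (by omega)]
    rw [he]
    exact ⟨fun h => by have := (ed_inj hv (by omega) (by omega)).1 h; omega, ed_mem (by omega)⟩

lemma E_suf {v : ℕ → Fin n} (hv : IsSeq n v) {i : ℕ} (h2 : i + 2 < n) :
    E (suf v i) = B v i := by
  refine E_eq_of_subset (isSeq_suf hv (by omega))
    (card_ins (by omega) (card_E hv) (ed_mem (by omega)) (b_not_mem hv h2)) ?_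
  intro k hk
  unfold B
  rw [Finset.mem_insert, Finset.mem_erase]
  rcases Nat.lt_trichotomy k i with h | h | h
  · right
    have he : ed (suf v i) k = ed v k := by
      rw [ed, ed]
      unfold suf
      rw [if_pos (by omega), if_pos (by omega)]
    rw [he]
    exact ⟨fun h => by have := (ed_inj hv (by omega) (by omega)).1 h; omega, ed_mem (by omega)⟩
  · left
    subst h
    rw [ed]
    unfold suf
    rw [if_pos le_rfl, if_neg (by omega), show n + k - (k + 1) = n - 1 by omega]
  · right
    have he : ed (suf v i) k = ed v (n + i - k - 1) := by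
      rw [ed, ed, Sym2.eq_swap]
      unfold suf
      rw [if_neg (by omega), if_neg (by omega), show n + i - (k + 1) = n + i - k - 1 by omega,
        show n + i - k - 1 + 1 = n + i - k by omega]
    rw [he]
    exact ⟨fun h => by have := (ed_inj hv (by omega) (by omega)).1 h; omega, ed_mem (by omega)⟩

lemma E_rot {v : ℕ → Fin n} (hn : 3 ≤ n) (hv : IsSeq n v) {i : ℕ} (h2 : i + 1 < n) :
    E (rot v (i + 1)) = R v i := by
  refine E_eq_of_subset (isSeq_rot hv _)
    (card_ins (by omega) (card_E hv) (ed_mem (by omega)) (end_not_mem hn hv)) ?_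
  intro k hk
  unfold R
  rw [Finset.mem_insert, Finset.mem_erase]
  rcases Nat.lt_trichotomy (k + i + 2) n with h | h | h
  · right
    have he : ed (rot v (i + 1)) k = ed v (k + i + 1) := by
      rw [ed, ed]
      unfold rot
      rw [Nat.mod_eq_of_lt (by omega : k + (i + 1) < n),
        Nat.mod_eq_of_lt (by omega : k + 1 + (i + 1) < n),
        show k + (i + 1) = k + i + 1 by omega, show k + 1 + (i + 1) = k + i + 1 + 1 by omega]
    rw [he]
    exact ⟨fun h => by have := (ed_inj hv (by omega) (by omega)).1 h; omega, ed_mem (by omega)⟩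
  · left
    rw [ed, Sym2.eq_swap]
    unfold rot
    rw [show k + 1 + (i + 1) = n by omega, Nat.mod_self, Nat.mod_eq_of_lt (by omega),
      show k + (i + 1) = n - 1 by omega]
  · right
    have h3 : (k + (i + 1)) % n = k + i + 1 - n := by
      rw [Nat.mod_eq_sub_mod (by omega), Nat.mod_eq_of_lt (by omega)]
      omega
    have h4 : (k + 1 + (i + 1)) % n = k + i + 1 - n + 1 := by
      rw [Nat.mod_eq_sub_mod (by omega), Nat.mod_eq_of_lt (by omega)]
      omega
    have he : ed (rot v (i + 1)) k = ed v (k + i + 1 - n) := by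
      rw [ed, ed]
      unfold rot
      rw [h3, h4]
    rw [he]
    exact ⟨fun h => by have := (ed_inj hv (by omega) (by omega)).1 h; omega, ed_mem (by omega)⟩

lemma isP_R {v : ℕ → Fin n} (hn : 3 ≤ n) (hv : IsSeq n v) {i : ℕ} (h2 : i + 1 < n) :
    IsP (R v i) := ⟨rot v (i + 1), isSeq_rot hv _, (E_rot hn hv h2).symm⟩

lemma isP_A {v : ℕ → Fin n} (hv : IsSeq n v) {i : ℕ} (h1 : 1 ≤ i) (h2 : i + 1 < n) :
    IsP (A v i) := ⟨pre v i, isSeq_pre hv (by omega), (E_pre hv h1 h2).symm⟩

lemma isP_B {v : ℕ → Fin n} (hv : IsSeq n v) {i : ℕ} (h2 : i + 2 < n) :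
    IsP (B v i) := ⟨suf v i, isSeq_suf hv (by omega), (E_suf hv h2).symm⟩

lemma R_rev {v : ℕ → Fin n} (hn : 3 ≤ n) : R (rev v) 0 = R v (n - 2) := by
  unfold R
  rw [E_rev]
  have h1 : s(rev v 0, rev v (n - 1)) = s(v 0, v (n - 1)) := by
    rw [Sym2.eq_swap]
    unfold rev
    rw [Nat.sub_self, Nat.sub_zero]
  have h2 : ed (rev v) 0 = ed v (n - 2) := by
    rw [ed, ed, Sym2.eq_swap]
    unfold rev
    rw [show n - 1 - (0 + 1) = n - 2 by omega, show n - 1 - 0 = n - 2 + 1 by omega]
  rw [h1, h2]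

lemma rot_rot {v : ℕ → Fin n} (j m : ℕ) : rot (rot v m) j = rot v (m + j) := by
  funext k
  unfold rot
  rw [Nat.mod_add_mod]
  congr 2
  omega

lemma rot_add_n {v : ℕ → Fin n} (m : ℕ) : rot v (m + n) = rot v m := by
  funext k
  unfold rot
  rw [← Nat.add_assoc, Nat.add_mod_right]

lemma rot_zero {v : ℕ → Fin n} {k : ℕ} (hk : k < n) : rot v 0 k = v k := by
  unfold rot
  rw [Nat.add_zero, Nat.mod_eq_of_lt hk]

lemma E_rot_zero {v : ℕ → Fin n} : E (rot v 0) = E v := E_congr fun _ hk => rot_zero hk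

/-- A sequence is determined by its edge set up to reversal. -/
lemma seq_unique {v w : ℕ → Fin n} (hn : 3 ≤ n) (hv : IsSeq n v) (hw : IsSeq n w)
    (h : E v = E w) : (∀ k < n, v k = w k) ∨ (∀ k < n, v k = rev w k) := by
  -- positions
  have key : ∀ g : ℕ → ℕ, (∀ k < n, g k < n) → (∀ k < n, v k = w (g k)) →
      (∀ k, k + 1 < n → g k + 1 = g (k + 1) ∨ g (k + 1) + 1 = g k) := by
    intro g hg hgv k hk
    have h1 : ed v k ∈ E w := h ▸ ed_mem hk
    rw [ed, hgv k (by omega), hgv (k + 1) hk, pair_mem hw (hg _ (by omega)) (hg _ hk)] at h1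
    exact h1
  choose! g hg1 hg2 using hw.2
  set f : ℕ → ℕ := fun k => g (v k) with hf
  have hf1 : ∀ k < n, f k < n := fun k _ => hg1 _
  have hf2 : ∀ k < n, v k = w (f k) := fun k _ => (hg2 _).symm
  have hstep := key f hf1 hf2
  have hinj : ∀ i < n, ∀ j < n, f i = f j → i = j := by
    intro i hi j hj hij
    apply hv.1 i hi j hj
    rw [hf2 i hi, hf2 j hj, hij]
  rcases hstep 0 (by omega) with h0 | h0
  · -- increasing
    have hinc : ∀ k, k + 1 < n → f (k + 1) = f k + 1 := by
      intro k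
      induction k with
      | zero => intro _; omega
      | succ k ih =>
        intro hk
        have h1 := ih (by omega)
        rcases hstep (k + 1) hk with h2 | h2
        · omega
        · exfalso
          have := hinj (k + 1 + 1) hk k (by omega) (by omega)
          omega
    have hall : ∀ k, k < n → f k = f 0 + k := by
      intro k
      induction k with
      | zero => intro _; rfl
      | succ k ih =>
        intro hk
        rw [hinc k hk, ih (by omega)]
        omega
    left
    intro k hk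
    have h1 := hall (n - 1) (by omega)
    have h2 := hf1 (n - 1) (by omega)
    rw [hf2 k hk, hall k hk, show f 0 = 0 by omega, Nat.zero_add]
  · have hdec : ∀ k, k + 1 < n → f (k + 1) + 1 = f k := by
      intro k
      induction k with
      | zero => intro _; exact h0
      | succ k ih =>
        intro hk
        have h1 := ih (by omega)
        rcases hstep (k + 1) hk with h2 | h2
        · exfalso
          have := hinj (k + 1 + 1) hk k (by omega) (by omega)
          omega
        · exact h2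
    have hall : ∀ k, k < n → f k + k = f 0 := by
      intro k
      induction k with
      | zero => intro _; rfl
      | succ k ih =>
        intro hk
        have h1 := hdec k hk
        have h2 := ih (by omega)
        omega
    right
    intro k hk
    have h1 := hall (n - 1) (by omega)
    have h2 := hf1 0 (by omega)
    have h3 := hall k hk
    rw [hf2 k hk]
    unfold rev
    congr 1
    omega

end Pool.Agent.X225.Pg
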